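import Pool.Agent.H4R2.LO.Fin
import Pool.Agent.H4R2.AE.TorG

/-!
# Gaussian disorder: exponential localization up to the effective band edge

`H_σ = Δ + σ ξ` on `ℤ^d`, `d ≥ 4`, `(Δψ)(x) = ∑_{|y-x|=1} ψ(y)`, iid standard Gaussian `ξ`, weak
coupling: exponential localization for all `|E| ≥ E_* + exp(-k/σ²)`, where `E_*` is the energy of the
flat top eigenvectors on tori.
-/

set_option autoImplicit false

open scoped BigOperators ENNReal
open MeasureTheory ProbabilityTheory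

namespace Pool.Agent.Results.MP_1906c1_mp.LocalizationToEdge

/-! ### The operator on `ℤ^d` -/

/-- `(H_σ ψ)(x) = ∑_{|y-x|=1} ψ(y) + σ ξ(x) ψ(x)` -/
noncomputable def H {d : ℕ} (σ : ℝ) (ξ : (Fin d → ℤ) → ℝ) (ψ : (Fin d → ℤ) → ℂ)
    (x : Fin d → ℤ) : ℂ :=
  ∑ i : Fin d, (ψ (x + Pi.single i 1) + ψ (x - Pi.single i 1)) + ((σ * ξ x : ℝ) : ℂ) * ψ x

/-- square summable functions -/
def SqSummable {d : ℕ} (u : (Fin d → ℤ) → ℂ) : Prop := Summable fun x => ‖u x‖ ^ 2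

/-- `μ` is the spectral measure of the vector `g`: a finite measure whose Borel transform
`∫ (E - z)⁻¹ dμ(E)` is `⟨g, (H - z)⁻¹ g⟩` for all non-real `z` -/
def IsSpectralMeasure {d : ℕ} (A : ((Fin d → ℤ) → ℂ) → (Fin d → ℤ) → ℂ) (g : (Fin d → ℤ) → ℂ)
    (μ : Measure ℝ) : Prop :=
  IsFiniteMeasure μ ∧ ∀ z : ℂ, z.im ≠ 0 → ∃ u : (Fin d → ℤ) → ℂ, SqSummable u ∧
    (∀ x, A u x - z * u x = g x) ∧ ∫ E : ℝ, ((E : ℂ) - z)⁻¹ ∂μ = ∑' x, (starRingEnd ℂ) (g x) * u x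

/-- exponential localization of the operator `A` at the energies in `S`, with rate `m`:
every polynomially bounded solution of `A ψ = E ψ`, `E ∈ S`, decays exponentially with rate `m`, and
the spectral measures are pure point in `S` (carried there by a countable set) -/
def Localized {d : ℕ} (A : ((Fin d → ℤ) → ℂ) → (Fin d → ℤ) → ℂ) (S : Set ℝ) (m : ℝ) : Prop :=
  (∀ E ∈ S, ∀ ψ : (Fin d → ℤ) → ℂ, (∃ (C : ℝ) (n : ℕ), ∀ x, ‖ψ x‖ ≤ C * (1 + ‖x‖) ^ n) →
    (∀ x, A ψ x = (E : ℂ) * ψ x) → ∃ C : ℝ, ∀ x, ‖ψ x‖ ≤ C * Real.exp (-(m * ‖x‖))) ∧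
  ∃ N : Set ℝ, N.Countable ∧ ∀ (g : (Fin d → ℤ) → ℂ) (μ : Measure ℝ), SqSummable g →
    IsSpectralMeasure A g μ → μ (S \ N) = 0

/-! ### The operator on a torus -/

/-- the discrete torus `(ℤ/L)^d` -/
abbrev T (d L : ℕ) : Type := Fin d → ZMod L

/-- `H_σ` on the torus -/
noncomputable def HT {d L : ℕ} (σ : ℝ) (ξ f : T d L → ℝ) (x : T d L) : ℝ :=
  ∑ i : Fin d, (f (x + Pi.single i 1) + f (x - Pi.single i 1)) + σ * ξ x * f x

/-- `H_σ` on the torus has an eigenfunction `ψ` with `1 ≤ ψ ≤ 1 + η` (it is the top eigenvector), and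
the eigenvalue differs from `Es` by at most `K / L²` -/
def FlatTopAt {d L : ℕ} (η K Es σ : ℝ) (ξ : T d L → ℝ) : Prop :=
  ∃ (E : ℝ) (ψ : T d L → ℝ), |E - Es| ≤ K / (L : ℝ) ^ 2 ∧ (∀ x, 1 ≤ ψ x ∧ ψ x ≤ 1 + η) ∧
    ∀ x, HT σ ξ ψ x = E * ψ x

/-- the exponent `1/σ²` for `d ≠ 4`, `1/σ` for `d = 4` -/
noncomputable def sc (d : ℕ) (σ : ℝ) : ℝ := if d = 4 then 1 / σ else 1 / σ ^ 2

/-! ### Translation -/

theorem law_neg (d : ℕ) :
    (Measure.infinitePi fun _ : Fin d → ℤ => gaussianReal 0 1).map (fun ξ x => -ξ x) =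
      Measure.infinitePi fun _ : Fin d → ℤ => gaussianReal 0 1 := by
  have h1 := Measure.infinitePi_map_pi (μ := fun _ : Fin d → ℤ => gaussianReal 0 1)
    (f := fun _ (s : ℝ) => -s) (fun _ => measurable_neg)
  simp only [gaussianReal_map_neg, neg_zero] at h1
  exact h1

theorem lawT_neg (d L : ℕ) [NeZero L] :
    (Measure.pi fun _ : T d L => gaussianReal 0 1).map (fun ξ x => -ξ x) =
      Measure.pi fun _ : T d L => gaussianReal 0 1 := by
  rw [← Measure.infinitePi_eq_pi]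
  have h1 := Measure.infinitePi_map_pi (μ := fun _ : T d L => gaussianReal 0 1)
    (f := fun _ (s : ℝ) => -s) (fun _ => measurable_neg)
  simp only [gaussianReal_map_neg, neg_zero] at h1
  exact h1

theorem H_eq {d : ℕ} (σ : ℝ) (ξ : (Fin d → ℤ) → ℝ) :
    H σ ξ = Pool.Agent.H4R2.LO.Hg 1 (fun x => σ * ξ x) := by
  funext u x
  unfold H Pool.Agent.H4R2.LO.Hg
  push_cast
  ring

theorem HT_eq {d L : ℕ} (σ : ℝ) (ξ f : T d L → ℝ) (x : T d L) :
    HT σ ξ f x = 2 * d * f x - Pool.Agent.H4R2.AE.Hop σ (fun y => -ξ y) f x := by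
  unfold HT Pool.Agent.H4R2.AE.Hop
  have h : ∑ i : Fin d, (2 * f x - f (x + Pi.single i 1) - f (x - Pi.single i 1)) =
      2 * d * f x - ∑ i : Fin d, (f (x + Pi.single i 1) + f (x - Pi.single i 1)) := by
    rw [Finset.sum_add_distrib, Finset.sum_sub_distrib, Finset.sum_sub_distrib]
    simp
    ring
  rw [h]
  ring

theorem localized_of {d : ℕ} (σ : ℝ) (ξ : (Fin d → ℤ) → ℝ) (S : Set ℝ) (m : ℝ) (hm : 0 < m)
    (h : Pool.Agent.H4R2.LO.Main.Dec d 1 (fun x => σ * ξ x) S m) :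
    Localized (H σ ξ) S m := by
  rw [H_eq]
  exact ⟨h, Pool.Agent.H4R2.LO.Main.pure_point 1 (fun x => σ * ξ x) S m hm h⟩

/-- **Theorem.** -/
theorem result (d : ℕ) (hd : 4 ≤ d) (η : ℝ) (hη : 0 < η) (hη' : η ≤ 1) :
    ∃ k K : ℝ, 0 < k ∧ 0 < K ∧ ∀ σ : ℝ, 0 < σ → σ ≤ k → ∃ Es : ℝ, |Es - 2 * d| ≤ 1 ∧
      -- (1) on tori of side up to `exp(k sc)` the top eigenvector is flat, with energy `Es + O(1/L²)`
      (∀ (L : ℕ) [NeZero L], (L : ℝ) ≤ Real.exp (k * sc d σ) →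
        ∃ G : Set (T d L → ℝ), MeasurableSet G ∧
          1 - Real.exp (-(k * sc d σ)) ≤ (Measure.pi fun _ : T d L => gaussianReal 0 1).real G ∧
          ∀ ξ ∈ G, FlatTopAt η K Es σ ξ) ∧
      -- (2) exponential localization for `|E| ≥ Es + κ`, for all `κ ≥ exp(-k sc)`
      ∀ κ : ℝ, Real.exp (-(k * sc d σ)) ≤ κ → κ ≤ 1 →
        ∀ᵐ ξ ∂(Measure.infinitePi fun _ : Fin d → ℤ => gaussianReal 0 1),
          Localized (H σ ξ) {E | Es + κ ≤ |E|} (k * Real.sqrt κ / Real.log (2 / (κ * σ))) := by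
  obtain ⟨c1, hc1, HT1⟩ := Pool.Agent.H4R2.AE.TorG.main_torusG d hd η hη hη'
  obtain ⟨k, s0, K, hk, hs0, hK, HF⟩ := Pool.Agent.H4R2.LO.Fin.fin d (by omega) 1 c1
    one_pos hc1
  -- the scale
  have hsc : ∀ σ : ℝ, sc d σ = 1 / Pool.Agent.H4R2.AE.scaleG d σ := by
    intro σ
    unfold sc Pool.Agent.H4R2.AE.scaleG
    split_ifs <;> rfl
  refine ⟨min k (min c1 (min s0 1)), K, by positivity, hK, ?_⟩
  intro σ hσ hσk
  have hσk1 : σ ≤ k := hσk.trans (min_le_left _ _)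
  have hσc1 : σ ≤ c1 := hσk.trans ((min_le_right _ _).trans (min_le_left _ _))
  have hσs0 : σ ≤ s0 := hσk.trans ((min_le_right _ _).trans ((min_le_right _ _).trans
    (min_le_left _ _)))
  have hσ1 : σ ≤ 1 := hσk.trans ((min_le_right _ _).trans ((min_le_right _ _).trans
    (min_le_right _ _)))
  set s := Pool.Agent.H4R2.AE.scaleG d σ with hs
  have hspos : 0 < s := Pool.Agent.H4R2.AE.TorG.scaleG_pos d σ hσ
  have hsσ : s ≤ σ := by
    rw [hs]
    unfold Pool.Agent.H4R2.AE.scaleG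
    split_ifs
    · exact le_rfl
    · nlinarith
  set k' : ℝ := min k (min c1 (min s0 1)) with hk'
  have hk'k : k' ≤ k := min_le_left _ _
  have hk'pos : 0 < k' := by positivity
  have hexp1 : k' * sc d σ ≤ k / s := by
    rw [hsc σ, ← hs, mul_one_div]
    exact div_le_div_of_nonneg_right hk'k hspos.le
  obtain ⟨Es, hEs, H1, H2⟩ := HF (gaussianReal 0 1) Pool.Agent.H4R2.LO.Lw.reg_gauss s σ η 1 hspos
    (hsσ.trans hσs0) hsσ hσ1 hη' (by
      intro L _ hL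
      obtain ⟨E, hE, G, hG, hP, hflat⟩ := HT1 σ hσ hσc1 L hL
      exact ⟨E, hE, G, hG, hP, fun V hV => (hflat V hV).2⟩)
  refine ⟨2 * d - Es, by rw [sub_sub_cancel_left, abs_neg]; exact hEs, ?_, ?_⟩
  · intro L _ hL
    obtain ⟨G, hG, hP, hflat⟩ := H1 L (hL.trans (Real.exp_le_exp.2 hexp1))
    have hm : Measurable (fun (ξ : T d L → ℝ) y => -ξ y) := by fun_prop
    refine ⟨(fun ξ y => -ξ y) ⁻¹' G, hm hG, ?_, fun ξ hξ => ?_⟩
    · have h1 : (Measure.pi fun _ : T d L => gaussianReal 0 1).real ((fun ξ y => -ξ y) ⁻¹' G) =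
          (Measure.pi fun _ : T d L => gaussianReal 0 1).real G := by
        conv_rhs => rw [← lawT_neg d L]
        rw [map_measureReal_apply hm hG]
      rw [h1]
      refine le_trans ?_ hP
      have h3 : Real.exp (-k / s) ≤ Real.exp (-(k' * sc d σ)) := by
        apply Real.exp_le_exp.2
        rw [neg_div]
        linarith
      linarith
    · obtain ⟨E0, ψ, h1, h2, h3⟩ := hflat _ hξ
      refine ⟨2 * d - E0, ψ, ?_, h2, fun x => ?_⟩
      · have : 2 * (d : ℝ) - E0 - (2 * d - Es) = -(E0 - Es) := by ring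
        rw [this, abs_neg]
        exact h1
      · rw [HT_eq, h3 x]
        ring
  · intro κ hκ hκ1
    have hκ' : Real.exp (-k / s) ≤ κ := by
      refine le_trans (Real.exp_le_exp.2 ?_) hκ
      rw [neg_div]
      linarith
    have hκ0 : 0 < κ := lt_of_lt_of_le (Real.exp_pos _) hκ
    have h1 := H2 κ hκ' hκ1
    set m : ℝ := k' * Real.sqrt κ / Real.log (2 / (κ * σ)) with hm
    have hbase : 2 ≤ 2 / (κ * σ) := by
      rw [le_div_iff₀ (by positivity)]
      have : κ * σ ≤ 1 := by nlinarith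
      linarith
    have hX : 0 < Real.log (2 / (κ * σ)) := Real.log_pos (by linarith)
    have hmpos : 0 < m := by positivity
    have hmm : m ≤ k * Real.sqrt κ / Real.log (2 / (κ * σ)) := by
      rw [hm]
      gcongr
    have hA : ∀ᵐ ξ ∂(Measure.infinitePi fun _ : Fin d → ℤ => gaussianReal 0 1),
        Pool.Agent.H4R2.LO.Main.Dec d (-1) (fun x => σ * ξ x) (Set.Iic (Es - 2 * d - κ)) m := by
      filter_upwards [h1] with ω hω
      exact Pool.Agent.H4R2.LO.Main.dec_mono _ _ _ _ _ _ hω le_rfl hmm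
    have hB : ∀ᵐ ξ ∂(Measure.infinitePi fun _ : Fin d → ℤ => gaussianReal 0 1),
        Pool.Agent.H4R2.LO.Main.Dec d (-1) (fun x => σ * -ξ x) (Set.Iic (Es - 2 * d - κ)) m := by
      have h3 := hA
      rw [← law_neg d] at h3
      have hm2 : Measurable (fun (ω : (Fin d → ℤ) → ℝ) x => -ω x) := by fun_prop
      exact ae_of_ae_map hm2.aemeasurable h3
    filter_upwards [hA, hB] with ξ hξ hξ'
    apply localized_of σ ξ _ m hmpos
    -- negative energies
    have e1 := Pool.Agent.H4R2.LO.Main.dec_stag _ _ _ m hξ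
    -- positive energies
    have e2 := Pool.Agent.H4R2.LO.Main.dec_neg _ _ _ m hξ'
    simp only [neg_neg, mul_neg] at e1 e2
    refine Pool.Agent.H4R2.LO.Main.dec_mono _ _ _ _ _ _
      (Pool.Agent.H4R2.LO.Main.dec_union _ _ _ _ m e1 e2) ?_ le_rfl
    intro E hE
    have hE' : 2 * d - Es + κ ≤ |E| := hE
    rcases abs_cases E with ⟨h, _⟩ | ⟨h, _⟩
    · right
      show -E ≤ Es - 2 * d - κ
      linarith
    · left
      show E ≤ Es - 2 * d - κ
      linarith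

end Pool.Agent.Results.MP_1906c1_mp.LocalizationToEdge
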