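import Pool.Agent.H5R2.NB.ALL

/-!
# The Gaussian Anderson model has no ballistic transport

`H_σ = Δ + σ ξ` on `ℤ^d`, `(Δψ)(x) = ∑_{|y-x|=1} ψ(y)`, `ξ(x)` iid standard Gaussian.
At every disorder strength `σ ≠ 0`, in every dimension, at all energies together: the mean square
displacement of `e^{-itH_σ} δ_0` is `o(t²)`.
-/

set_option autoImplicit false

open MeasureTheory Filter Topology ProbabilityTheory
open scoped BigOperators ENNReal NNReal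

namespace Pool.Agent.Results.MP_1906c1_mp.NoBallisticTransport

/-- `ψ` is the evolution `e^{-itH_σ} δ_0`: it starts at `δ_0`, solves
`i ∂_t ψ(t,x) = ∑_{|y-x|=1} ψ(t,y) + σ ξ(x) ψ(t,x)` at all sites and times (the neighbours of `x`
are `x ± e_i`), and `∑_x |ψ(t,x)|² = 1` at all times -/
structure Evolution (d : ℕ) (σ : ℝ) (ξ : (Fin d → ℤ) → ℝ) (ψ : ℝ → (Fin d → ℤ) → ℂ) : Prop where
  init : ψ 0 = Pi.single 0 1
  schrodinger : ∀ t x, HasDerivAt (fun s => ψ s x)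
    (-Complex.I * ((∑ i : Fin d, (ψ t (x + Pi.single i 1) + ψ t (x - Pi.single i 1))) +
      ((σ * ξ x : ℝ) : ℂ) * ψ t x)) t
  norm_one : ∀ t, HasSum (fun x => ‖ψ t x‖ ^ 2) 1

/-- the law of iid standard Gaussian variables on `ℤ^d` -/
noncomputable def gauss (d : ℕ) : Measure ((Fin d → ℤ) → ℝ) :=
  Measure.infinitePi fun _ => gaussianReal 0 1

/-- the mean square displacement at time `t`, `𝔼 ∑_x |x|² |Ψ(ξ,t,x)|²`, `|x|` the Euclidean norm -/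
noncomputable def meanSquare (d : ℕ) (Ψ : ((Fin d → ℤ) → ℝ) → ℝ → (Fin d → ℤ) → ℂ) (t : ℝ) :
    ℝ≥0∞ :=
  ∫⁻ ξ, ∑' x : Fin d → ℤ, ENNReal.ofReal (∑ i : Fin d, (x i : ℝ) ^ 2) * ‖Ψ ξ t x‖ₑ ^ 2 ∂(gauss d)

/-- For every dimension and every `σ ≠ 0`: for every potential there is exactly one evolution of
`δ_0`, and its mean square displacement divided by `t²` tends to zero as `t → ∞`. -/
theorem result (d : ℕ) (σ : ℝ) (hσ : σ ≠ 0) :
    (∀ ξ : (Fin d → ℤ) → ℝ, ∃! ψ, Evolution d σ ξ ψ) ∧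
    ∀ Ψ : ((Fin d → ℤ) → ℝ) → ℝ → (Fin d → ℤ) → ℂ, (∀ ξ, Evolution d σ ξ (Ψ ξ)) →
      Tendsto (fun t : ℝ => meanSquare d Ψ t / ENNReal.ofReal (t ^ 2)) atTop (𝓝 0) := by
  have key : ∀ (ξ : (Fin d → ℤ) → ℝ) (ψ : ℝ → (Fin d → ℤ) → ℂ), Evolution d σ ξ ψ ↔
      Pool.Agent.H5R2.NB.GEN.IsEvo 1 (fun x => 0 + σ * ξ x) ψ := by
    intro ξ ψ
    have e : ∀ t x, Pool.Agent.H5R2.NB.hopf 1 (ψ t) x + (((0 + σ * ξ x : ℝ)) : ℂ) * ψ t x =
        (∑ i : Fin d, (ψ t (x + Pi.single i 1) + ψ t (x - Pi.single i 1))) +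
          ((σ * ξ x : ℝ) : ℂ) * ψ t x := by
      intro t x
      rw [Pool.Agent.H5R2.NB.hopf, Complex.ofReal_one, one_mul, zero_add]
    constructor
    · intro h
      exact ⟨h.init, fun t x => by rw [e]; exact h.schrodinger t x, h.norm_one⟩
    · intro h
      exact ⟨h.init, fun t x => by rw [← e]; exact h.deriv t x, h.norm⟩
  refine ⟨fun ξ => ?_, fun Ψ hΨ => ?_⟩
  · simp only [key]
    exact Pool.Agent.H5R2.NB.GEN.existsUnique_evo Pool.Agent.H5R2.NB.ALL.a_EX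
      Pool.Agent.H5R2.NB.ALL.a_UN 1 (fun x => 0 + σ * ξ x)
  · obtain ⟨C, hC⟩ := Pool.Agent.H5R2.NB.LAW.gaussian_le
    exact Pool.Agent.H5R2.NB.GEN.main Pool.Agent.H5R2.NB.ALL.a_EX Pool.Agent.H5R2.NB.ALL.a_UN
      Pool.Agent.H5R2.NB.ALL.a_CV Pool.Agent.H5R2.NB.ALL.a_MAIN 1 (gaussianReal 0 1)
      (fun r => 0 + σ * r) (by fun_prop) _
      (Pool.Agent.H5R2.NB.LAW.map_affine_le (gaussianReal 0 1) C hC 0 σ hσ) Ψ
      (fun ξ => (key ξ _).1 (hΨ ξ))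

end Pool.Agent.Results.MP_1906c1_mp.NoBallisticTransport

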