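import Pool.Agent.H10R2.PL.Final3
import Pool.Agent.H10R2.PL.Prof3

/-!
The Gaussian Anderson model on `Z^d` with an additional random-sign hopping of arbitrarily small
strength `g`, decaying not faster than the critical rate `|x - y|^(-d)` (in particular
`|x - y|^(-α)` for every `d/2 < α ≤ d`), has almost surely no eigenvalue, at every disorder
strength, in every dimension.
-/

namespace Pool.Agent.Results.MP_1906c1_mp.PowerLawHopping

open MeasureTheory ProbabilityTheory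

/-- the law of independent standard Gaussian variables `ξ x`, `x` a site of `Z^d` -/
noncomputable def gaussField (d : ℕ) : Measure ((Fin d → ℤ) → ℝ) :=
  Measure.infinitePi fun _ => gaussianReal 0 1

/-- the law of independent fair coins, one for each unordered pair of sites -/
noncomputable def coinField (d : ℕ) : Measure (Sym2 (Fin d → ℤ) → Bool) :=
  Measure.infinitePi fun _ => (PMF.uniformOfFintype Bool).toMeasure

/-- the sign `1` or `-1` of a coin -/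
def sign (c : Bool) : ℝ := if c then 1 else -1

/-- `(H ψ)(x)` for `H = Δ + σ ξ + g B`, `B(x,y) = sign(s{x,y}) κ(x-y)` -/
noncomputable def H {d : ℕ} (σ g : ℝ) (κ : (Fin d → ℤ) → ℝ) (ξ : (Fin d → ℤ) → ℝ)
    (s : Sym2 (Fin d → ℤ) → Bool) (ψ : (Fin d → ℤ) → ℂ) (x : Fin d → ℤ) : ℂ :=
  (∑ i : Fin d, (ψ (x + Pi.single i 1) + ψ (x - Pi.single i 1))) +
    ((σ * ξ x : ℝ) : ℂ) * ψ x +
    (g : ℂ) * ∑' y, ((sign (s s(x, y)) * κ (x - y) : ℝ) : ℂ) * ψ y

/-- scaling of the Gaussian field -/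
theorem scale_mp (d : ℕ) (σ : ℝ) : MeasurePreserving
    (fun (ξ : (Fin d → ℤ) → ℝ) x => σ * ξ x) (gaussField d) (H10PL.PV d ⟨σ ^ 2, sq_nonneg σ⟩) := by
  refine ⟨by fun_prop, ?_⟩
  unfold gaussField H10PL.PV
  have h1 := Measure.infinitePi_map_pi (μ := fun _ : Fin d → ℤ => gaussianReal 0 1)
    (f := fun (_ : Fin d → ℤ) (t : ℝ) => σ * t) (fun _ => by fun_prop)
  rw [h1]
  congr 1
  funext x
  have h2 := gaussianReal_map_const_mul (μ := 0) (v := 1) σ
  rw [h2, mul_zero, mul_one]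
  rfl

theorem result (d : ℕ) (hd : 0 < d) (σ g α c C : ℝ) (hσ : σ ≠ 0) (hg : g ≠ 0)
    (hα : (d : ℝ) / 2 < α) (hc : 0 < c) (κ : (Fin d → ℤ) → ℝ) (hκ0 : κ 0 = 0)
    (hκs : ∀ y, κ (-y) = κ y)
    (hκ : ∀ y, y ≠ 0 → c * ‖y‖ ^ (-(d : ℝ)) ≤ |κ y| ∧ |κ y| ≤ C * ‖y‖ ^ (-α)) :
    ∀ᵐ ω : ((Fin d → ℤ) → ℝ) × (Sym2 (Fin d → ℤ) → Bool) ∂((gaussField d).prod (coinField d)),
      ∀ (E : ℂ) (ψ : (Fin d → ℤ) → ℂ), Summable (fun x => ‖ψ x‖ ^ 2) →
        (∀ x, H σ g κ ω.1 ω.2 ψ x = E * ψ x) → ψ = 0 := by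
  have hgκ : ∀ y, y ≠ 0 → (|g| * c) * ‖y‖ ^ (-(d : ℝ)) ≤ |g * κ y| ∧
      |g * κ y| ≤ (|g| * C) * ‖y‖ ^ (-α) := by
    intro y hy
    obtain ⟨h1, h2⟩ := hκ y hy
    rw [abs_mul, mul_assoc, mul_assoc]
    exact ⟨mul_le_mul_of_nonneg_left h1 (abs_nonneg g), mul_le_mul_of_nonneg_left h2 (abs_nonneg g)⟩
  have h0 : (fun y => g * κ y) 0 = 0 := by simp [hκ0]
  have hsum := H10PL.summable_two_sided hd (κ := fun y => g * κ y) hα h0 (fun y hy => (hgκ y hy).2)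
  have hsum1 := H10PL.summable_two_sided hd hα hκ0 (fun y hy => (hκ y hy).2)
  have hadm := H10PL.T1_adm d (fun y => g * κ y) h0 (fun y => by
    show g * κ (-y) = g * κ y
    rw [hκs]) hsum
  have hgc : 0 < |g| * c := mul_pos (abs_pos.2 hg) hc
  have hv : (⟨σ ^ 2, sq_nonneg σ⟩ : NNReal) ≠ 0 := by
    intro h
    have h2 : σ ^ 2 = 0 := congrArg NNReal.toReal h
    exact hσ (pow_eq_zero_iff two_ne_zero |>.1 h2)
  have hgen := H10PL.general3_ae hadm
    (H10PL.prof3_of_lower hd hgc (fun y hy => (hgκ y hy).1)) (|g| * C) α hα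
    (fun y hy => (hgκ y hy).2) ⟨σ ^ 2, sq_nonneg σ⟩ hv
  have hmp : MeasurePreserving (Prod.map (fun (ξ : (Fin d → ℤ) → ℝ) x => σ * ξ x) id)
      ((gaussField d).prod (coinField d)) ((H10PL.PV d ⟨σ ^ 2, sq_nonneg σ⟩).prod (H10PL.Ps d)) := by
    have h3 : SFinite (gaussField d) := by unfold gaussField; infer_instance
    have h4 : SFinite (coinField d) := by
      show SFinite (H10PL.Ps d)
      infer_instance
    exact (scale_mp d σ).prod (MeasurePreserving.id (H10PL.Ps d))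
  have hae := hmp.quasiMeasurePreserving.ae hgen
  filter_upwards [hae] with ω hω
  intro E ψ hψ he
  refine hω E ψ hψ fun x => ?_
  rw [← he x]
  unfold H
  simp only [Prod.map_fst, Prod.map_snd, id]
  have hK : (∑' w, (H10PL.Kf (H10PL.T1 d) (fun y => g * κ y) ω.2 x w : ℂ) * ψ w) =
      (∑ i : Fin d, (ψ (x + Pi.single i 1) + ψ (x - Pi.single i 1))) +
      (g : ℂ) * ∑' y, ((sign (ω.2 s(x, y)) * κ (x - y) : ℝ) : ℂ) * ψ y :=
    H10PL.Kf_T1_apply g hsum1 ω.2 ψ hψ x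
  rw [hK]
  ring

end Pool.Agent.Results.MP_1906c1_mp.PowerLawHopping
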