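import Pool.Agent.H4R2.AE.FinG
import Pool.Agent.H4R2.AE.Upperg
import Pool.Agent.H4R2.AE.Llen

/-!
# Gaussian disorder: delocalisation up to the sharp scale `exp(c/σ²)`

`H_σ = Δ + σ ξ` with `(Δψ)(x) = ∑_{|y-x|=1} ψ(y)` and iid standard Gaussian `ξ`.
-/

set_option autoImplicit false

open scoped BigOperators ENNReal
open MeasureTheory ProbabilityTheory

namespace Pool.Agent.Results.MP_1906c1_mp.SharpGaussianScale

/-- the discrete torus `(ℤ/L)^d` -/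
abbrev T (d L : ℕ) : Type := Fin d → ZMod L

/-- `H_σ f = Δ f + σ ξ f` on the torus, `Δ` the sum over the `2d` neighbours -/
noncomputable def HT {d L : ℕ} (σ : ℝ) (ξ f : T d L → ℝ) (x : T d L) : ℝ :=
  ∑ i : Fin d, (f (x + Pi.single i 1) + f (x - Pi.single i 1)) + σ * ξ x * f x

/-- law of iid standard Gaussians on the torus -/
noncomputable def gaussT (d L : ℕ) [NeZero L] : Measure (T d L → ℝ) :=
  Measure.pi fun _ => gaussianReal 0 1

/-- law of iid standard Gaussians on `ℤ^d` -/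
noncomputable def gaussZ (d : ℕ) : Measure ((Fin d → ℤ) → ℝ) :=
  Measure.infinitePi fun _ => gaussianReal 0 1

/-- `H_σ` on the torus has a positive eigenfunction `ψ` with `1 ≤ ψ ≤ 1 + η` (it is the top
eigenvector), and the gap below its eigenvalue is at least `1 / (2 d L²)` -/
def FlatTop {d L : ℕ} [NeZero L] (η σ : ℝ) (ξ : T d L → ℝ) : Prop :=
  ∃ (E : ℝ) (ψ : T d L → ℝ), (∀ x, 1 ≤ ψ x ∧ ψ x ≤ 1 + η) ∧ (∀ x, HT σ ξ ψ x = E * ψ x) ∧
    ∀ f : T d L → ℝ, ∑ x, ψ x * f x = 0 →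
      1 / (2 * (d : ℝ) * (L : ℝ) ^ 2) * ∑ x, f x ^ 2 ≤ ∑ x, f x * (E * f x - HT σ ξ f x)

/-- the scale `exp(c/σ²)` for `d ≠ 4`, `exp(c/σ)` for `d = 4` -/
noncomputable def ell (d : ℕ) (c σ : ℝ) : ℝ := Real.exp (c / (if d = 4 then σ else σ ^ 2))

/-- `(H_σ - 2d) ψ` on `ℤ^d` -/
noncomputable def H {d : ℕ} (σ : ℝ) (ξ : (Fin d → ℤ) → ℝ) (ψ : (Fin d → ℤ) → ℂ)
    (x : Fin d → ℤ) : ℂ :=
  ∑ i : Fin d, (ψ (x + Pi.single i 1) + ψ (x - Pi.single i 1)) - 2 * (d : ℂ) * ψ x +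
    ((σ * ξ x : ℝ) : ℂ) * ψ x

/-- the amplitude `⟨x|exp(-it(H_σ - 2d))|0⟩ = ∑_n (-it)^n / n! ((H_σ - 2d)^n δ_0)(x)`; it has the
same modulus as `⟨x|exp(-it H_σ)|0⟩` -/
noncomputable def amp {d : ℕ} (σ : ℝ) (ξ : (Fin d → ℤ) → ℝ) (t : ℝ) (x : Fin d → ℤ) : ℂ :=
  ∑' n : ℕ, ((-(t : ℂ) * Complex.I) ^ n / (n.factorial : ℂ)) *
    ((H σ ξ)^[n] (fun y => if y = 0 then 1 else 0)) x

/-- the particle started at the origin reaches distance `ell d c σ` -/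
def Spreads (d : ℕ) (c σ : ℝ) (ξ : (Fin d → ℤ) → ℝ) : Prop :=
  (1 / 2 : ℝ≥0∞) ≤ ∑' x : {x : Fin d → ℤ // ell d c σ < ‖x‖},
    ⨆ t ∈ Set.Icc (0 : ℝ) (ell d 1 σ), ‖amp σ ξ t x.1‖ₑ

/-- every bound `|amp σ ξ t x| ≤ exp(q - ‖x‖/r)`, `0 ≤ t ≤ ell d 1 σ`, with `q = ell d (c/4) σ`,
has localization length `r ≥ q` -/
def LongLocalizationLength (d : ℕ) (c σ : ℝ) (ξ : (Fin d → ℤ) → ℝ) : Prop :=
  ∀ r : ℝ, 0 < r → (∀ (x : Fin d → ℤ), ∀ t ∈ Set.Icc (0 : ℝ) (ell d 1 σ),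
    ‖amp σ ξ t x‖ ≤ Real.exp (ell d (c / 4) σ - ‖x‖ / r)) → ell d (c / 4) σ ≤ r

/-! ### Translation -/

theorem HT_eq {d L : ℕ} (σ : ℝ) (ξ f : T d L → ℝ) (x : T d L) :
    HT σ ξ f x = 2 * d * f x - Pool.Agent.H4R2.AE.Hop σ (fun y => -ξ y) f x := by
  unfold HT Pool.Agent.H4R2.AE.Hop
  have h : ∑ i : Fin d, (2 * f x - f (x + Pi.single i 1) - f (x - Pi.single i 1)) =
      2 * d * f x - ∑ i : Fin d, (f (x + Pi.single i 1) + f (x - Pi.single i 1)) := by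
    rw [Finset.sum_add_distrib, Finset.sum_sub_distrib, Finset.sum_sub_distrib]
    simp
    ring
  rw [h]
  ring

theorem flatTop_of {d L : ℕ} [NeZero L] (η σ : ℝ) (ξ : T d L → ℝ)
    (h : Pool.Agent.H4R2.AE.Flat σ η (fun y => -ξ y)) : FlatTop η σ ξ := by
  obtain ⟨E0, ψ, h1, h2, h3⟩ := h
  refine ⟨2 * d - E0, ψ, h1, fun x => ?_, fun f hf => ?_⟩
  · rw [HT_eq, h2]
    ring
  · refine (h3 f hf).trans (le_of_eq (Finset.sum_congr rfl fun x _ => ?_))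
    rw [HT_eq]
    ring

theorem H_eq {d : ℕ} (σ : ℝ) (ξ : (Fin d → ℤ) → ℝ) (ψ : (Fin d → ℤ) → ℂ) :
    H σ ξ ψ = -Pool.Agent.H4R2.AE.Bridge.Hf 1 (fun y => σ * -ξ y) ψ := by
  funext x
  rw [Pi.neg_apply]
  unfold H Pool.Agent.H4R2.AE.Bridge.Hf
  have h : ∑ i : Fin d, ((ψ (x + Pi.single i 1) - ψ x) + (ψ (x - Pi.single i 1) - ψ x)) =
      ∑ i : Fin d, (ψ (x + Pi.single i 1) + ψ (x - Pi.single i 1)) - 2 * (d : ℂ) * ψ x := by
    rw [Finset.sum_add_distrib, Finset.sum_sub_distrib, Finset.sum_sub_distrib,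
      Finset.sum_add_distrib]
    simp
    ring
  rw [h]
  push_cast
  ring

theorem Hf_neg {d : ℕ} (W : (Fin d → ℤ) → ℝ) (ψ : (Fin d → ℤ) → ℂ) :
    Pool.Agent.H4R2.AE.Bridge.Hf 1 W (-ψ) = -Pool.Agent.H4R2.AE.Bridge.Hf 1 W ψ := by
  funext x
  unfold Pool.Agent.H4R2.AE.Bridge.Hf
  simp only [Pi.neg_apply]
  have h : ∑ i : Fin d, ((-ψ (x + Pi.single i 1) - -ψ x) + (-ψ (x - Pi.single i 1) - -ψ x)) =
      -∑ i : Fin d, ((ψ (x + Pi.single i 1) - ψ x) + (ψ (x - Pi.single i 1) - ψ x)) := by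
    rw [← Finset.sum_neg_distrib]
    exact Finset.sum_congr rfl fun i _ => by ring
  rw [h]
  ring

theorem Hf_smul {d : ℕ} (W : (Fin d → ℤ) → ℝ) (a : ℂ) (ψ : (Fin d → ℤ) → ℂ) :
    Pool.Agent.H4R2.AE.Bridge.Hf 1 W (a • ψ) = a • Pool.Agent.H4R2.AE.Bridge.Hf 1 W ψ := by
  funext x
  unfold Pool.Agent.H4R2.AE.Bridge.Hf
  simp only [Pi.smul_apply, smul_eq_mul]
  have h : ∑ i : Fin d, ((a * ψ (x + Pi.single i 1) - a * ψ x) +
      (a * ψ (x - Pi.single i 1) - a * ψ x)) =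
      a * ∑ i : Fin d, ((ψ (x + Pi.single i 1) - ψ x) + (ψ (x - Pi.single i 1) - ψ x)) := by
    rw [Finset.mul_sum]
    exact Finset.sum_congr rfl fun i _ => by ring
  rw [h]
  ring

theorem iter_eq {d : ℕ} (σ : ℝ) (ξ : (Fin d → ℤ) → ℝ) (ψ : (Fin d → ℤ) → ℂ) (n : ℕ) :
    (H σ ξ)^[n] ψ = ((-1 : ℂ) ^ n) •
      (Pool.Agent.H4R2.AE.Bridge.Hf 1 (fun y => σ * -ξ y))^[n] ψ := by
  induction n with
  | zero => simp
  | succ n ih =>
    rw [Function.iterate_succ_apply', ih, Function.iterate_succ_apply', H_eq, Hf_smul, pow_succ]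
    funext x
    simp

theorem iter_real {d : ℕ} (W : (Fin d → ℤ) → ℝ) (n : ℕ) (x : Fin d → ℤ) :
    (starRingEnd ℂ) ((Pool.Agent.H4R2.AE.Bridge.Hf 1 W)^[n] (fun y => if y = 0 then 1 else 0) x) =
      (Pool.Agent.H4R2.AE.Bridge.Hf 1 W)^[n] (fun y => if y = 0 then 1 else 0) x := by
  induction n generalizing x with
  | zero =>
    simp only [Function.iterate_zero, id]
    split_ifs <;> simp
  | succ n ih =>
    rw [Function.iterate_succ_apply']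
    unfold Pool.Agent.H4R2.AE.Bridge.Hf at ih ⊢
    simp only [map_add, map_neg, map_sum, map_sub, map_mul, ih, Complex.conj_ofReal]

theorem norm_amp {d : ℕ} (σ : ℝ) (ξ : (Fin d → ℤ) → ℝ) (t : ℝ) (x : Fin d → ℤ) :
    ‖amp σ ξ t x‖ = ‖Pool.Agent.H4R2.AE.FinG.ampZ (fun y => σ * -ξ y) t x‖ := by
  have h : amp σ ξ t x =
      (starRingEnd ℂ) (Pool.Agent.H4R2.AE.FinG.ampZ (fun y => σ * -ξ y) t x) := by
    unfold amp Pool.Agent.H4R2.AE.FinG.ampZ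
    rw [Complex.conj_tsum]
    refine tsum_congr fun n => ?_
    rw [iter_eq, map_mul, iter_real, map_div₀, map_pow, map_mul, map_neg, Complex.conj_I,
      Complex.conj_ofReal, Complex.conj_natCast, Pi.smul_apply, smul_eq_mul]
    have e : (-(t : ℂ) * -Complex.I) ^ n = (-(t : ℂ) * Complex.I) ^ n * (-1) ^ n := by
      rw [← mul_pow]
      congr 1
      ring
    rw [e]
    ring
  rw [h, RCLike.norm_conj]

theorem enorm_amp {d : ℕ} (σ : ℝ) (ξ : (Fin d → ℤ) → ℝ) (t : ℝ) (x : Fin d → ℤ) :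
    ‖amp σ ξ t x‖ₑ = ‖Pool.Agent.H4R2.AE.FinG.ampZ (fun y => σ * -ξ y) t x‖ₑ := by
  rw [← ofReal_norm, ← ofReal_norm, norm_amp]

/-- the law is symmetric -/
theorem gaussT_symm (d L : ℕ) [NeZero L] (G : Set (T d L → ℝ)) (hG : MeasurableSet G) :
    (gaussT d L).real ((fun ξ y => -ξ y) ⁻¹' G) = (gaussT d L).real G := by
  have hm : Measurable (fun (ξ : T d L → ℝ) y => -ξ y) := by fun_prop
  have h : (gaussT d L).map (fun ξ y => -ξ y) = gaussT d L := by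
    unfold gaussT
    rw [← Measure.infinitePi_eq_pi]
    have h1 := Measure.infinitePi_map_pi (μ := fun _ : T d L => gaussianReal 0 1)
      (f := fun _ (s : ℝ) => -s) (fun _ => measurable_neg)
    simp only [gaussianReal_map_neg, neg_zero] at h1
    exact h1
  conv_rhs => rw [← h]
  rw [map_measureReal_apply hm hG]

theorem gaussZ_symm (d : ℕ) (G : Set ((Fin d → ℤ) → ℝ)) (hG : MeasurableSet G) :
    (gaussZ d).real ((fun ξ y => -ξ y) ⁻¹' G) = (gaussZ d).real G := by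
  have hm : Measurable (fun (ξ : (Fin d → ℤ) → ℝ) y => -ξ y) := by fun_prop
  have h : (gaussZ d).map (fun ξ y => -ξ y) = gaussZ d := by
    unfold gaussZ
    have h1 := Measure.infinitePi_map_pi (μ := fun _ : Fin d → ℤ => gaussianReal 0 1)
      (f := fun _ (s : ℝ) => -s) (fun _ => measurable_neg)
    simp only [gaussianReal_map_neg, neg_zero] at h1
    exact h1
  conv_rhs => rw [← h]
  rw [map_measureReal_apply hm hG]

/-- **Theorem.** Gaussian disorder, `d ≥ 4`: (1), (2) the top eigenvector on tori, (3) infinite volume. -/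
theorem result (d : ℕ) (hd : 4 ≤ d) :
    -- (1) the top eigenvector on the torus is flat for `L ≤ exp(c/σ²)`
    (∀ η : ℝ, 0 < η → η ≤ 1 → ∃ c : ℝ, 0 < c ∧ ∀ σ : ℝ, 0 < σ → σ ≤ c → ∀ (L : ℕ) [NeZero L],
      (L : ℝ) ≤ ell d c σ → ∃ G : Set (T d L → ℝ), MeasurableSet G ∧
        1 - (ell d c σ)⁻¹ ≤ (gaussT d L).real G ∧ ∀ ξ ∈ G, FlatTop η σ ξ) ∧
    -- (2) it is not flat for `L ≥ exp(C/σ²)`
    (∃ C : ℝ, 0 < C ∧ ∀ σ : ℝ, 0 < σ → σ ≤ 1 → ∀ (L : ℕ) [NeZero L],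
      Real.exp (C / σ ^ 2) ≤ (L : ℝ) → ∃ G : Set (T d L → ℝ), MeasurableSet G ∧
        1 - 1 / Real.sqrt (L : ℝ) ≤ (gaussT d L).real G ∧ ∀ ξ ∈ G, ¬ FlatTop 1 σ ξ) ∧
    -- (3) infinite volume: no localization below the scale `exp(c/σ²)`
    ∃ c σ0 : ℝ, 0 < c ∧ 0 < σ0 ∧ ∀ σ : ℝ, 0 < σ → σ ≤ σ0 →
      ∃ G : Set ((Fin d → ℤ) → ℝ), MeasurableSet G ∧ 1 - (ell d c σ)⁻¹ ≤ (gaussZ d).real G ∧
        ∀ ξ ∈ G, Spreads d c σ ξ ∧ LongLocalizationLength d c σ ξ := by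
  have hell : ∀ c σ : ℝ, ell d c σ = Real.exp (c / Pool.Agent.H4R2.AE.scaleG d σ) :=
    fun c σ => rfl
  refine ⟨?_, ?_, ?_⟩
  · intro η hη hη'
    obtain ⟨c, hc, H⟩ := Pool.Agent.H4R2.AE.TorG.main_torusG d hd η hη hη'
    refine ⟨c, hc, ?_⟩
    intro σ hσ hσc L _ hL
    obtain ⟨E, hE, G, hG, hP, hflat⟩ := H σ hσ hσc L hL
    have hm : Measurable (fun (ξ : T d L → ℝ) y => -ξ y) := by fun_prop
    refine ⟨(fun ξ y => -ξ y) ⁻¹' G, hm hG, ?_, fun ξ hξ => ?_⟩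
    · rw [gaussT_symm d L G hG, hell, ← Real.exp_neg, ← neg_div]
      exact hP
    · exact flatTop_of η σ ξ (hflat _ hξ).2.flat
  · obtain ⟨C, hC, H⟩ := Pool.Agent.H4R2.AE.Upperg.upper d (by omega)
    refine ⟨C, hC, ?_⟩
    intro σ hσ hσ1 L _ hL
    obtain ⟨G, hG, hP, hG2⟩ := H σ hσ hσ1 L hL
    have hm : Measurable (fun (ξ : T d L → ℝ) y => -ξ y) := by fun_prop
    refine ⟨(fun ξ y => -ξ y) ⁻¹' G, hm hG, ?_, fun ξ hξ => ?_⟩
    · rw [gaussT_symm d L G hG]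
      exact hP
    · rintro ⟨E, ψ, h1, h2, -⟩
      refine hG2 _ hξ ⟨2 * d - E, ψ, fun x => ⟨(h1 x).1, by linarith [(h1 x).2]⟩, fun x => ?_⟩
      have h3 := HT_eq σ ξ ψ x
      rw [h2 x] at h3
      linarith
  · obtain ⟨cA, hcA, hcA1, hA⟩ := Pool.Agent.H4R2.AE.FinG.main d hd
    obtain ⟨q0, hq0, hq⟩ := Pool.Agent.H4R2.AE.Llen.llen d
    have hlq : 0 ≤ Real.log q0 := Real.log_nonneg hq0
    set s0 : ℝ := min cA (cA / (8 * (Real.log q0 + 1))) with hs0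
    have hs0pos : 0 < s0 := lt_min hcA (by positivity)
    have hs01 : s0 ≤ 1 := (min_le_left _ _).trans hcA1
    refine ⟨cA / 2, s0, by positivity, hs0pos, ?_⟩
    intro σ hσ hσc
    have hσ1 : σ ≤ cA := hσc.trans (min_le_left _ _)
    set s := Pool.Agent.H4R2.AE.scaleG d σ with hs
    have hell' : ∀ c : ℝ, ell d c σ = Real.exp (c / s) := fun c => rfl
    have hspos : 0 < s := Pool.Agent.H4R2.AE.TorG.scaleG_pos d σ hσ
    have hss0 : s ≤ s0 := Pool.Agent.H4R2.AE.TorG.scaleG_le d σ s0 hσ hs01 hσc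
    have hbig : 8 * (Real.log q0 + 1) ≤ cA / s := by
      rw [le_div_iff₀ hspos]
      have h1 : s ≤ cA / (8 * (Real.log q0 + 1)) := hss0.trans (min_le_right _ _)
      rw [le_div_iff₀ (by positivity)] at h1
      linarith
    obtain ⟨G, hG, hP, hG2⟩ := hA σ hσ hσ1
    have hm : Measurable (fun (ξ : (Fin d → ℤ) → ℝ) y => -ξ y) := by fun_prop
    refine ⟨(fun ξ y => -ξ y) ⁻¹' G, hm hG, ?_, fun ξ hξ => ?_⟩
    · rw [gaussZ_symm d G hG]
      refine le_trans ?_ hP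
      have e3 : 2 * Real.exp (-cA / s) ≤ (ell d (cA / 2) σ)⁻¹ := by
        rw [hell', ← Real.exp_neg]
        have h2 : -cA / s = -(cA / 2 / s) + -(cA / 2 / s) := by ring
        rw [h2, Real.exp_add]
        have h3 : (2 : ℝ) ≤ Real.exp (cA / 2 / s) := by
          have h4 : 1 ≤ cA / 2 / s := by
            have : cA / 2 / s = (cA / s) / 2 := by ring
            rw [this]
            linarith
          have := Real.add_one_le_exp (cA / 2 / s)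
          linarith
        have h5 : 2 * Real.exp (-(cA / 2 / s)) ≤ 1 := by
          rw [Real.exp_neg, ← div_eq_mul_inv, div_le_one (Real.exp_pos _)]
          exact h3
        have h6 := Real.exp_pos (-(cA / 2 / s))
        nlinarith
      linarith
    · have hmono : ell d (cA / 2) σ ≤ Real.exp (cA / s) := by
        rw [hell']
        apply Real.exp_le_exp.2
        gcongr
        linarith
      have hsum : Spreads d (cA / 2) σ ξ := by
        unfold Spreads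
        simp only [enorm_amp]
        refine (hG2 _ hξ).trans ?_
        exact ENNReal.tsum_mono_subtype
          (fun x : Fin d → ℤ => ⨆ t ∈ Set.Icc (0 : ℝ) (ell d 1 σ),
            ‖Pool.Agent.H4R2.AE.FinG.ampZ (fun y => σ * -ξ y) t x‖ₑ)
          (fun x (hx : Real.exp (cA / s) < ‖x‖) => lt_of_le_of_lt hmono hx)
      refine ⟨hsum, ?_⟩
      intro r hr hb
      have hq4 : ell d (cA / 2 / 4) σ ^ 4 = ell d (cA / 2) σ := by
        rw [hell', hell', ← Real.exp_nat_mul]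
        congr 1
        push_cast
        ring
      refine hq (ell d (cA / 2 / 4) σ) ?_ r hr
        (fun x => ⨆ t ∈ Set.Icc (0 : ℝ) (ell d 1 σ), ‖amp σ ξ t x‖ₑ) ?_ ?_
      · rw [hell', ← Real.exp_log (show 0 < q0 by linarith)]
        apply Real.exp_le_exp.2
        have : cA / 2 / 4 / s = (cA / s) / 8 := by ring
        rw [this]
        linarith
      · intro x
        refine iSup₂_le fun t ht => ?_
        rw [← ofReal_norm]
        exact ENNReal.ofReal_le_ofReal (hb x t ht)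
      · rw [hq4]
        exact hsum

end Pool.Agent.Results.MP_1906c1_mp.SharpGaussianScale
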